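import Pool.Agent.N483.KM.Stm
import Pool.Agent.R755.KF.P2

/-!
# The Prékopa–Leindler inequality in the Gaussian channel
-/

set_option autoImplicit false

namespace Pool.Agent.N456.KM

open MeasureTheory Set Filter Topology
open scoped ENNReal InnerProductSpace
open Pool.Agent.H888R2.KT (gs gc)
open Pool.Agent.R754.KG (E un sl Rv)
open Pool.Agent.R755.KF (BL PB PW zn ey e2 om sd aff PLH PL3 CB lw)
open Pool.Agent.R755.KF.P2aux (Kn Kn_pos Kn_le_one Kn_cont Kn_int)
open Pool.Agent.N483.KM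

namespace CPLx

variable {k : ℕ}

/-- the weight -/
noncomputable def W (h s : ℝ) (B : Set (E k)) (z : E k) : ℝ :=
  Real.exp (-((1 - s) / (2 * h * s) * Metric.infDist z B ^ 2))

lemma W_pos (h s : ℝ) (B : Set (E k)) (z : E k) : 0 < W h s B z := Real.exp_pos _

lemma W_le {h s : ℝ} (hh : 0 < h) (hs : 0 < s) (hs1 : s < 1) (B : Set (E k)) (z : E k) :
    W h s B z ≤ 1 := by
  unfold W
  rw [Real.exp_le_one_iff]
  have h1 : 0 < 1 - s := by linarith
  have : 0 ≤ (1 - s) / (2 * h * s) * Metric.infDist z B ^ 2 := by positivity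
  linarith

lemma W_cont (h s : ℝ) (B : Set (E k)) : Continuous (W h s B) := by
  unfold W
  have := Metric.continuous_infDist_pt (s := B)
  fun_prop

lemma ident (s : ℝ) (x x' y : E k) : (1 - s) * ‖x - y‖ ^ 2 + s * ‖x' - y‖ ^ 2 =
    ‖((1 - s) • x + s • x') - y‖ ^ 2 + s * (1 - s) * ‖x - x'‖ ^ 2 := by
  have e1 : ((1 - s) • x + s • x') - y = (1 - s) • (x - y) + s • (x' - y) := by module
  have e2 : x - x' = (x - y) - (x' - y) := by abel
  rw [e1, e2]
  generalize x - y = a
  generalize x' - y = b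
  rw [norm_add_sq_real, norm_sub_sq_real, norm_smul, norm_smul, inner_smul_left,
    inner_smul_right, mul_pow, mul_pow, Real.norm_eq_abs, Real.norm_eq_abs, sq_abs, sq_abs]
  simp only [conj_trivial]
  ring

lemma ptw {h s : ℝ} (hh : 0 < h) (hs : 0 < s) (hs1 : s < 1) (B : Set (E k)) (x x' y : E k)
    (hx : x ∈ B) : Kn h x y ^ (1 - s) * Kn h x' y ^ s ≤
      Kn h ((1 - s) • x + s • x') y * W h s B ((1 - s) • x + s • x') := by
  unfold Kn W
  rw [← Real.exp_mul, ← Real.exp_mul, ← Real.exp_add, ← Real.exp_add]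
  apply Real.exp_le_exp.2
  set z := (1 - s) • x + s • x' with hz
  have h1 := ident s x x' y
  rw [← hz] at h1
  have h2 : Metric.infDist z B ≤ s * ‖x - x'‖ := by
    refine (Metric.infDist_le_dist_of_mem hx).trans ?_
    rw [dist_comm, dist_eq_norm]
    have : x - z = s • (x - x') := by rw [hz]; module
    rw [this, norm_smul, Real.norm_of_nonneg hs.le]
  have h3 : Metric.infDist z B ^ 2 ≤ (s * ‖x - x'‖) ^ 2 :=
    pow_le_pow_left₀ Metric.infDist_nonneg h2 2
  have h4 : (1 - s) / (2 * h * s) * Metric.infDist z B ^ 2 ≤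
      s * (1 - s) * ‖x - x'‖ ^ 2 / (2 * h) := by
    have h5 : 0 < 1 - s := by linarith
    have h6 : (1 - s) / (2 * h * s) * Metric.infDist z B ^ 2 ≤
      (1 - s) / (2 * h * s) * (s * ‖x - x'‖) ^ 2 :=
      mul_le_mul_of_nonneg_left h3 (by positivity)
    refine h6.trans (le_of_eq ?_)
    field_simp
  have h7 : -(‖x - y‖ ^ 2 / (2 * h)) * (1 - s) + -(‖x' - y‖ ^ 2 / (2 * h)) * s =
      -(‖z - y‖ ^ 2 / (2 * h)) - s * (1 - s) * ‖x - x'‖ ^ 2 / (2 * h) := by
    have : -(‖x - y‖ ^ 2 / (2 * h)) * (1 - s) + -(‖x' - y‖ ^ 2 / (2 * h)) * s =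
      -(((1 - s) * ‖x - y‖ ^ 2 + s * ‖x' - y‖ ^ 2) / (2 * h)) := by ring
    rw [this, h1]
    ring
  rw [h7]
  linarith

variable {h s : ℝ} {ν : Measure (E k)} {B : Set (E k)}

lemma nz_nonneg (y : E k) : 0 ≤ nz h ν B y := by
  unfold nz
  exact integral_nonneg fun x => (Real.exp_pos _).le

lemma nz_le (hh : 0 < h) [IsProbabilityMeasure ν] (y : E k) : nz h ν B y ≤ zn h ν y := by
  unfold nz zn
  exact setIntegral_le_integral (Kn_int hh y) (Filter.Eventually.of_forall fun x =>
    (Real.exp_pos _).le)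

lemma nz_cont (hh : 0 < h) [IsProbabilityMeasure ν] : Continuous (nz h ν B) := by
  unfold nz
  refine continuous_of_dominated (bound := fun _ => 1) ?_ ?_ ?_ ?_
  · intro y
    exact (Kn_int (ν := ν) hh y).aestronglyMeasurable.restrict
  · intro y
    refine Filter.Eventually.of_forall fun x => ?_
    rw [Real.norm_of_nonneg (Real.exp_pos _).le]
    exact Kn_le_one hh x y
  · exact integrable_const _
  · refine Filter.Eventually.of_forall fun x => ?_
    fun_prop

/-- the right side, as a function of `y` -/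
noncomputable def G (h s : ℝ) (ν : Measure (E k)) (B : Set (E k)) (y : E k) : ℝ :=
  ∫ z, Kn h z y * W h s B z ∂ν

lemma KW_int (hh : 0 < h) (hs : 0 < s) (hs1 : s < 1) [IsProbabilityMeasure ν] (y : E k) :
    Integrable (fun z => Kn h z y * W h s B z) ν := by
  refine Integrable.of_bound ?_ 1 (Filter.Eventually.of_forall fun z => ?_)
  · exact ((Kn_int (ν := ν) hh y).aestronglyMeasurable).mul
      (W_cont h s B).aestronglyMeasurable
  · rw [Real.norm_of_nonneg (mul_pos (Kn_pos h z y) (W_pos h s B z)).le]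
    exact mul_le_one₀ (Kn_le_one hh z y) (W_pos h s B z).le (W_le hh hs hs1 B z)

lemma key (hh : 0 < h) (hs : 0 < s) (hs1 : s < 1) [IsProbabilityMeasure ν] (hP : PLS ν)
    (hB : MeasurableSet B) (y : E k) :
    nz h ν B y ^ (1 - s) * zn h ν y ^ s ≤ G h s ν B y := by
  have h1s : 0 < 1 - s := by linarith
  have mK : Measurable fun x : E k => Kn h x y :=
    ((Kn_cont h).comp (continuous_id.prodMk continuous_const)).measurable
  have mf : Measurable fun x : E k => ENNReal.ofReal (B.indicator (fun x => Kn h x y) x) :=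
    (mK.indicator hB).ennreal_ofReal
  have mg : Measurable fun x : E k => ENNReal.ofReal (Kn h x y) := mK.ennreal_ofReal
  have mH : Measurable fun z : E k => ENNReal.ofReal (Kn h z y * W h s B z) :=
    (mK.mul (W_cont h s B).measurable).ennreal_ofReal
  have h1 := hP s hs hs1 _ _ _ mf mg mH (by
    intro x x'
    by_cases hx : x ∈ B
    · rw [indicator_of_mem hx, ENNReal.ofReal_rpow_of_pos (Kn_pos h x y),
        ENNReal.ofReal_rpow_of_pos (Kn_pos h x' y), ← ENNReal.ofReal_mul
          (Real.rpow_nonneg (Kn_pos h x y).le _)]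
      exact ENNReal.ofReal_le_ofReal (ptw hh hs hs1 B x x' y hx)
    · rw [indicator_of_notMem hx, ENNReal.ofReal_zero, ENNReal.zero_rpow_of_pos h1s, zero_mul]
      exact zero_le)
  have e1 : ∫⁻ x, ENNReal.ofReal (B.indicator (fun x => Kn h x y) x) ∂ν =
      ENNReal.ofReal (nz h ν B y) := by
    rw [← ofReal_integral_eq_lintegral_ofReal ((Kn_int hh y).indicator hB)
      (Filter.Eventually.of_forall fun x => indicator_nonneg (fun x _ => (Kn_pos h x y).le) x),
      integral_indicator hB]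
    rfl
  have e2 : ∫⁻ x, ENNReal.ofReal (Kn h x y) ∂ν = ENNReal.ofReal (zn h ν y) := by
    rw [← ofReal_integral_eq_lintegral_ofReal (Kn_int hh y)
      (Filter.Eventually.of_forall fun x => (Kn_pos h x y).le)]
    rfl
  have e3 : ∫⁻ z, ENNReal.ofReal (Kn h z y * W h s B z) ∂ν = ENNReal.ofReal (G h s ν B y) := by
    rw [← ofReal_integral_eq_lintegral_ofReal (KW_int hh hs hs1 y)
      (Filter.Eventually.of_forall fun x => (mul_pos (Kn_pos h x y) (W_pos h s B x)).le)]
    rfl
  have hz : 0 ≤ zn h ν y := (nz_nonneg (B := B) y).trans (nz_le hh y)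
  have hG : 0 ≤ G h s ν B y :=
    integral_nonneg fun x => (mul_pos (Kn_pos h x y) (W_pos h s B x)).le
  rw [e1, e2, e3, ENNReal.ofReal_rpow_of_nonneg (nz_nonneg y) h1s.le,
    ENNReal.ofReal_rpow_of_nonneg hz hs.le, ← ENNReal.ofReal_mul
      (Real.rpow_nonneg (nz_nonneg y) _)] at h1
  exact (ENNReal.ofReal_le_ofReal_iff hG).1 h1

lemma prod_int (hh : 0 < h) (hs : 0 < s) (hs1 : s < 1) [IsProbabilityMeasure ν] :
    Integrable (fun p : E k × E k => Kn h p.1 p.2 * W h s B p.1) (ν.prod volume) := by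
  have hgc := Pool.Agent.H888R2.KT.gc_pos (κ := Fin k) h hh
  have hprod : Integrable (fun p : E k × E k => Kn h p.1 p.2) (ν.prod volume) := by
    rw [integrable_prod_iff (Kn_cont h).aestronglyMeasurable]
    refine ⟨Filter.Eventually.of_forall fun x => hgc.2.2.1 x, ?_⟩
    have : (fun x : E k => ∫ y, ‖Kn h (x, y).1 (x, y).2‖) = fun _ => gc (Fin k) h := by
      funext x
      rw [← hgc.2.1 x]
      refine integral_congr_ae (Filter.Eventually.of_forall fun y => ?_)
      exact Real.norm_of_nonneg (Kn_pos h x y).le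
    rw [this]
    exact integrable_const _
  refine hprod.mono' ?_ (Filter.Eventually.of_forall fun p => ?_)
  · exact ((Kn_cont h).mul ((W_cont h s B).comp continuous_fst)).aestronglyMeasurable
  · rw [Real.norm_of_nonneg (mul_pos (Kn_pos h _ _) (W_pos h s B _)).le]
    exact mul_le_of_le_one_right (Kn_pos h _ _).le (W_le hh hs hs1 B _)

lemma G_int (hh : 0 < h) (hs : 0 < s) (hs1 : s < 1) [IsProbabilityMeasure ν] :
    Integrable (G h s ν B) ∧ ∫ y, G h s ν B y = gc (Fin k) h * ∫ z, W h s B z ∂ν := by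
  have hgc := Pool.Agent.H888R2.KT.gc_pos (κ := Fin k) h hh
  have hp := prod_int (ν := ν) (B := B) hh hs hs1
  refine ⟨hp.integral_prod_right, ?_⟩
  have h1 := integral_integral_swap (f := fun z y => Kn h z y * W h s B z) (μ := ν)
    (ν := (volume : Measure (E k))) hp
  have h2 : ∫ y, G h s ν B y = ∫ y, ∫ z, Kn h z y * W h s B z ∂ν := rfl
  rw [h2, ← h1, ← integral_const_mul]
  refine integral_congr_ae (Filter.Eventually.of_forall fun z => ?_)
  show ∫ y, Kn h z y * W h s B z = gc (Fin k) h * W h s B z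
  rw [integral_mul_const]
  congr 1
  exact hgc.2.1 z

end CPLx

open CPLx

theorem t_CPL : S_CPL := by
  intro k h s B0 ν B hh hs hs1 hν hP hB
  have := hν.prob
  have hν' : PB (max B0 0) ν :=
    ⟨hν.prob, hν.bdd.mono fun x hx => hx.trans (le_max_left _ _)⟩
  obtain ⟨z1, z2, -, -, -, z6, -⟩ :=
    Pool.Agent.R755.KF.zn_ok k h (max B0 0) ν hh (le_max_right _ _) hν'
  have h1s : 0 < 1 - s := by linarith
  have hI : Integrable (fun y => (nz h ν B y / zn h ν y) ^ (1 - s) * zn h ν y) := by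
    refine z6.mono' ?_ (Filter.Eventually.of_forall fun y => ?_)
    · have m1 : Measurable fun y => (nz h ν B y / zn h ν y) ^ (1 - s) :=
        ((nz_cont hh).measurable.div z1.continuous.measurable).pow_const _
      exact (m1.mul z1.continuous.measurable).aestronglyMeasurable
    · have h1 : 0 ≤ nz h ν B y / zn h ν y := div_nonneg (nz_nonneg y) (z2 y).le
      have h2 : nz h ν B y / zn h ν y ≤ 1 := (div_le_one (z2 y)).2 (nz_le hh y)
      rw [Real.norm_of_nonneg (mul_nonneg (Real.rpow_nonneg h1 _) (z2 y).le)]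
      exact mul_le_of_le_one_left (z2 y).le (Real.rpow_le_one h1 h2 h1s.le)
  obtain ⟨g1, g2⟩ := G_int (k := k) (h := h) (s := s) (ν := ν) (B := B) hh hs hs1
  refine ⟨hI, ?_⟩
  have h3 : ∫ y, (nz h ν B y / zn h ν y) ^ (1 - s) * zn h ν y ≤ ∫ y, G h s ν B y := by
    refine integral_mono hI g1 fun y => ?_
    show (nz h ν B y / zn h ν y) ^ (1 - s) * zn h ν y ≤ G h s ν B y
    refine le_trans (le_of_eq ?_) (key hh hs hs1 hP hB y)
    rw [Real.div_rpow (nz_nonneg y) (z2 y).le]
    have h4 : zn h ν y ^ (1 - s) * zn h ν y ^ s = zn h ν y := by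
      rw [← Real.rpow_add (z2 y)]
      simp
    have h5 : 0 < zn h ν y ^ (1 - s) := Real.rpow_pos_of_pos (z2 y) _
    field_simp
    rw [mul_assoc, h4]
  rw [g2] at h3
  exact h3

end Pool.Agent.N456.KM
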