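import Pool.Agent.N483.KM.StmP
import Pool.Agent.N539.KM.ORX

/-!
# Concentration for all bodies given by few inequalities and few functionals
-/

set_option autoImplicit false

namespace Pool.Agent.N456.KM

open MeasureTheory Set Filter Topology
open scoped ENNReal InnerProductSpace
open Pool.Agent.R754.KG (E un sl Rv)
open Pool.Agent.Y506.PV (CcW ind)
open Pool.Agent.N483.KM

namespace PRXx

theorem int_ind {n : ℕ} {K : Set (E n)} (hK : MeasurableSet K) (hb : Bornology.IsBounded K) :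
    Integrable (fun x => (1 + ‖x‖ ^ 2) * ind K x) := Pool.Agent.N539.KM.ORX.int_ind hK hb

/-- limits of decreasing sequences of bodies -/
theorem lim_cc {n : ℕ} {κ δ : ℝ} (hκ : 0 < κ) {K : Set (E n)} {Km : ℕ → Set (E n)}
    (hcap' : K = ⋂ m, Km m) (hcl : ∀ m, IsClosed (Km m))
    (hbd : ∀ m, Bornology.IsBounded (Km m)) (hanti : Antitone Km) {x0 : E n}
    (hx0 : x0 ∈ interior K) (hcc : ∀ m, CcW κ δ (ind (Km m))) : CcW (κ / 2) δ (ind K) := by
  have hKcl : IsClosed K := by
    rw [hcap']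
    exact isClosed_iInter hcl
  have hKsub : ∀ j, K ⊆ Km j := fun j => by
    rw [hcap']
    exact iInter_subset _ _
  have hb : Bornology.IsBounded K := (hbd 0).subset (hKsub 0)
  have hKms : MeasurableSet K := hKcl.measurableSet
  have hKjm : ∀ j, MeasurableSet (Km j) := fun j => (hcl j).measurableSet
  have hpos : 0 < ∫ x, ind K x := by
    have hvpos : 0 < volume K := Pool.Agent.Y506.PV.vol_pos ⟨x0, hx0⟩
    have hvfin : volume K < ∞ := hb.measure_lt_top
    unfold ind
    rw [integral_indicator hKms, setIntegral_const, smul_eq_mul, mul_one]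
    exact ENNReal.toReal_pos hvpos.ne' hvfin.ne
  refine Pool.Agent.Y824.PV.limc n κ δ (ind K) (fun j => ind (Km j)) hκ (int_ind hKms hb) hpos
    (fun j => int_ind (hKjm j) (hbd j)) ?_ (Eventually.of_forall hcc)
  have hlim : Tendsto (fun j => ∫ x, (1 + ‖x‖ ^ 2) * |ind (Km j) x - ind K x|) atTop
      (𝓝 (∫ _x : E n, (0 : ℝ))) := by
    have hdiff : ∀ j x, ind (Km j) x - ind K x = ind (Km j \ K) x := by
      intro j x
      unfold ind
      by_cases h1 : x ∈ K
      · have h2 := hKsub j h1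
        rw [indicator_of_mem h2, indicator_of_mem h1, indicator_of_notMem (by simp [h1])]
        ring
      · by_cases h2 : x ∈ Km j
        · rw [indicator_of_mem h2, indicator_of_notMem h1,
            indicator_of_mem (show x ∈ Km j \ K from ⟨h2, h1⟩)]
          ring
        · rw [indicator_of_notMem h2, indicator_of_notMem h1, indicator_of_notMem (by simp [h2])]
          ring
    have hind : ∀ (S : Set (E n)) x, 0 ≤ ind S x := fun S x =>
      indicator_nonneg (fun _ _ => zero_le_one) x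
    refine tendsto_integral_of_dominated_convergence
      (fun x => (1 + ‖x‖ ^ 2) * ind (Km 0) x) (fun j => ?_)
      (int_ind (hKjm 0) (hbd 0)) (fun j => Eventually.of_forall fun x => ?_)
      (Eventually.of_forall fun x => ?_)
    · have e : (fun x => (1 + ‖x‖ ^ 2) * |ind (Km j) x - ind K x|)
          = fun x => (1 + ‖x‖ ^ 2) * ind (Km j \ K) x := by
        funext x
        rw [hdiff, abs_of_nonneg (hind _ _)]
      rw [e]
      exact (int_ind ((hKjm j).diff hKms) ((hbd j).subset sdiff_subset)).aestronglyMeasurable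
    · rw [Real.norm_eq_abs, hdiff, abs_mul, abs_abs, abs_of_nonneg (hind _ _),
        abs_of_pos (by positivity)]
      apply mul_le_mul_of_nonneg_left _ (by positivity)
      unfold ind
      exact indicator_le_indicator_of_subset (sdiff_subset.trans (hanti (Nat.zero_le j)))
        (fun _ => zero_le_one) x
    · apply tendsto_const_nhds.congr'
      have hev : ∀ᶠ j in atTop, x ∉ Km j \ K := by
        by_cases h1 : x ∈ K
        · exact Eventually.of_forall fun j hj => hj.2 h1
        · have h3 : ∃ k, x ∉ Km k := by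
            by_contra hcon
            push Not at hcon
            exact h1 (by rw [hcap']; exact mem_iInter.2 hcon)
          obtain ⟨k, hk⟩ := h3
          filter_upwards [eventually_ge_atTop k] with j hj hj2
          exact hk (hanti hj hj2.1)
      filter_upwards [hev] with j hj
      rw [hdiff]
      unfold ind
      rw [indicator_of_notMem hj]
      simp
  simpa using hlim

section algebra
variable {r n N : ℕ}

theorem pr_closed {v : Fin N → E n} {V : Fin r → Fin N → ℝ → ℝ} (s : Fin r → ℝ)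
    (hV : ∀ j i, ConvexOn ℝ univ (V j i)) : IsClosed (PR v V s) := by
  have e : PR v V s = ⋂ j, {x : E n | ∑ i, V j i ⟪v i, x⟫_ℝ ≤ s j} := by
    ext x
    simp [PR]
  rw [e]
  refine isClosed_iInter fun j => isClosed_le ?_ continuous_const
  refine continuous_finsetSum _ fun i _ => ?_
  have h1 : Continuous (V j i) := by
    rw [← continuousOn_univ]
    exact (hV j i).continuousOn isOpen_univ
  exact h1.comp (by fun_prop)

theorem pr_convex {v : Fin N → E n} {V : Fin r → Fin N → ℝ → ℝ} (s : Fin r → ℝ)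
    (hV : ∀ j i, ConvexOn ℝ univ (V j i)) : Convex ℝ (PR v V s) := by
  intro x hx y hy a b ha hb hab j
  have h1 := hx j
  have h2 := hy j
  have h3 : ∑ i, V j i ⟪v i, a • x + b • y⟫_ℝ ≤
      ∑ i, (a * V j i ⟪v i, x⟫_ℝ + b * V j i ⟪v i, y⟫_ℝ) := by
    refine Finset.sum_le_sum fun i _ => ?_
    have := (hV j i).2 (mem_univ ⟪v i, x⟫_ℝ) (mem_univ ⟪v i, y⟫_ℝ) ha hb hab
    rw [inner_add_right, inner_smul_right, inner_smul_right]
    simpa using this
  rw [Finset.sum_add_distrib, ← Finset.mul_sum, ← Finset.mul_sum] at h3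
  have h4 : a * ∑ i, V j i ⟪v i, x⟫_ℝ ≤ a * s j := mul_le_mul_of_nonneg_left h1 ha
  have h5 : b * ∑ i, V j i ⟪v i, y⟫_ℝ ≤ b * s j := mul_le_mul_of_nonneg_left h2 hb
  have h6 : a * s j + b * s j = s j := by rw [← add_mul, hab, one_mul]
  linarith

/-- the map given by the functionals -/
noncomputable def AA (v : Fin N → E n) : E n →ₗ[ℝ] E N where
  toFun x := WithLp.toLp 2 fun i => ⟪v i, x⟫_ℝ
  map_add' x y := by ext i; simp [inner_add_right]
  map_smul' c x := by ext i; simp [inner_smul_right]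

theorem AA_apply (v : Fin N → E n) (x : E n) (i : Fin N) : AA v x i = ⟪v i, x⟫_ℝ := rfl

/-- a bounded nonempty set of this kind: the functionals separate the points -/
theorem AA_inj {v : Fin N → E n} {V : Fin r → Fin N → ℝ → ℝ≥0∞} {e : Fin r → ℝ≥0∞}
    (hb : Bornology.IsBounded (PX v V e)) {p : E n} (hp : p ∈ PX v V e) :
    Function.Injective (AA v) := by
  rw [← LinearMap.ker_eq_bot, LinearMap.ker_eq_bot']
  intro x hx
  by_contra hx0
  have hv : ∀ i, ⟪v i, x⟫_ℝ = 0 := fun i => by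
    rw [← AA_apply, hx]
    rfl
  have hmem : ∀ t : ℝ, p + t • x ∈ PX v V e := by
    intro t j
    have := hp j
    have h2 : ∀ i, ⟪v i, p + t • x⟫_ℝ = ⟪v i, p⟫_ℝ := fun i => by
      rw [inner_add_right, inner_smul_right, hv i, mul_zero, add_zero]
    simp only [h2]
    exact this
  obtain ⟨R, hR⟩ := hb.exists_norm_le
  have hxn : 0 < ‖x‖ := norm_pos_iff.2 hx0
  have h1 := hR _ (hmem ((R + ‖p‖ + 1) / ‖x‖))
  have h2 : ‖((R + ‖p‖ + 1) / ‖x‖) • x‖ ≤ ‖p + ((R + ‖p‖ + 1) / ‖x‖) • x‖ + ‖p‖ := by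
    have := norm_sub_le (p + ((R + ‖p‖ + 1) / ‖x‖) • x) p
    simpa using this
  have hR0 : 0 ≤ R := (norm_nonneg _).trans (hR _ hp)
  rw [norm_smul, Real.norm_of_nonneg (by positivity), div_mul_cancel₀ _ hxn.ne'] at h2
  linarith

/-- extension to a linear equivalence -/
theorem extend {v : Fin N → E n} (hinj : Function.Injective (AA v)) :
    n ≤ N ∧ ∃ ψ : (E n × E (N - n)) ≃ₗ[ℝ] E N, ∀ x, ψ (x, 0) = AA v x := by
  have hle : n ≤ N := by
    have := LinearMap.finrank_le_finrank_of_injective hinj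
    simpa using this
  refine ⟨hle, ?_⟩
  obtain ⟨C, hC⟩ := Submodule.exists_isCompl (LinearMap.range (AA v))
  have hfr : Module.finrank ℝ (LinearMap.range (AA v)) = n := by
    rw [LinearMap.finrank_range_of_inj hinj]
    simp
  have hfC : Module.finrank ℝ (E (N - n)) = Module.finrank ℝ C := by
    have h1 := Submodule.finrank_add_eq_of_isCompl hC
    rw [hfr] at h1
    have h2 : Module.finrank ℝ (E N) = N := by simp
    rw [h2] at h1
    have h3 : Module.finrank ℝ (E (N - n)) = N - n := by simp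
    rw [h3]
    omega
  let e1 : E n ≃ₗ[ℝ] LinearMap.range (AA v) := LinearEquiv.ofInjective (AA v) hinj
  let e2 : E (N - n) ≃ₗ[ℝ] C := LinearEquiv.ofFinrankEq _ _ hfC
  refine ⟨(e1.prodCongr e2).trans (Submodule.prodEquivOfIsCompl _ _ hC), fun x => ?_⟩
  rw [LinearEquiv.trans_apply, LinearEquiv.prodCongr_apply, Submodule.coe_prodEquivOfIsCompl']
  simp only [map_zero, Submodule.coe_zero, add_zero]
  rfl

end algebra

end PRXx

open PRXx

theorem t_PRX (h1 : S_PAP) (h2 : S_PRR) : S_PRX := by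
  intro r q δ hδ
  obtain ⟨κ, hκ, H⟩ := Pool.Agent.R754.KG.min_const (P := fun q' κ => ∀ (n N : ℕ)
      (ψ : (E n × E q') ≃ₗ[ℝ] E N) (V : Fin r → Fin N → ℝ → ℝ) (e : Fin r → ℝ), 1 ≤ n →
      1 ≤ r → (∀ j i, ConvexOn ℝ univ (V j i)) → (∀ j i t, 0 ≤ V j i t) →
      (∃ R : ℝ, ∀ j i t, max (|t| - R) 0 ^ 2 ≤ V j i t) →
      (∃ x : E n, ∀ j, ∑ i, V j i (ψ (x, 0) i) < e j) →
      CcW κ δ (ind {x : E n | ∀ j, ∑ i, V j i (ψ (x, 0) i) ≤ e j}))
    (fun j => h2 r j δ hδ)
    (fun j κ κ' hκ' hP n N ψ V e a1 a2 a3 a4 a5 a6 => (hP n N ψ V e a1 a2 a3 a4 a5 a6).mono hκ') q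
  refine ⟨κ / 2, by linarith, fun n N v V e hN hV hb hint => ?_⟩
  obtain ⟨x0, hx0⟩ := hint
  have hx0' : x0 ∈ PX v V e := interior_subset hx0
  obtain ⟨U, f, hUc, hU0, hUg, hUb, hUs, hmon, hcap⟩ := h1 r n N v V e hV hb ⟨x0, hx0'⟩
  have hinj := AA_inj hb hx0'
  obtain ⟨K, hK⟩ : ∃ K : Set (E n), K = PX v V e := ⟨_, rfl⟩
  obtain ⟨Km, hKm⟩ : ∃ Km : ℕ → Set (E n), Km = fun m => PR v (U m) (f m) := ⟨_, rfl⟩
  have hcap' : K = ⋂ m, Km m := by
    rw [hK, hKm]
    exact hcap.symm
  have hb' := hb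
  rw [← hK] at hb hx0 ⊢
  have hcl : ∀ m, IsClosed (Km m) := fun m => by
    rw [hKm]
    exact pr_closed _ (hUc m)
  have hcv : ∀ m, Convex ℝ (Km m) := fun m => by
    rw [hKm]
    exact pr_convex _ (hUc m)
  have hbd : ∀ m, Bornology.IsBounded (Km m) := fun m => by
    rw [hKm]
    exact hUb m
  have hanti : Antitone Km := antitone_nat_of_succ_le fun m => by
    rw [hKm]
    exact hmon m
  have hKcl : IsClosed K := by
    rw [hcap']
    exact isClosed_iInter hcl
  have hKc : IsCompact K := Metric.isCompact_of_isClosed_isBounded hKcl hb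
  have hKv : Convex ℝ K := by
    rw [hcap']
    exact convex_iInter hcv
  refine ⟨hKc, hKv, ?_⟩
  rcases Nat.eq_zero_or_pos n with rfl | hn
  · exact Pool.Agent.R754.KG.cc_zero hδ.le K hKc ⟨x0, hx0⟩
  have hr : 1 ≤ r := by
    rcases Nat.eq_zero_or_pos r with hr | hr
    · exfalso
      subst hr
      have hun : PX v V e = univ := eq_univ_of_forall fun x j => j.elim0
      rw [hun] at hb'
      have : Nonempty (Fin n) := ⟨⟨0, hn⟩⟩
      exact NormedSpace.unbounded_univ ℝ (E n) hb'
    · exact hr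
  obtain ⟨hnN, ψ, hψ⟩ := extend hinj
  have hev : ∀ (x : E n) (i : Fin N), ψ (x, 0) i = ⟪v i, x⟫_ℝ := fun x i => by
    rw [hψ, AA_apply]
  have hcc : ∀ m, CcW κ δ (ind (Km m)) := fun m => by
    have h3 := H (N - n) (by omega) n N ψ (U m) (f m) hn hr (hUc m) (hU0 m) (hUg m) (by
      obtain ⟨x, hx⟩ := hUs m
      refine ⟨x, fun j => ?_⟩
      simp only [hev]
      exact hx j)
    have e : Km m = {x : E n | ∀ j, ∑ i, U m j i (ψ (x, 0) i) ≤ f m j} := by
      rw [hKm]
      ext x
      simp only [hev]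
      rfl
    rw [e]
    exact h3
  exact lim_cc hκ hcap' hcl hbd hanti hx0 hcc

end Pool.Agent.N456.KM
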